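import Pool.Agent.Lib.MP_1a91b9_ntK.R.Sym3

/-!
# The cubic residue symbol of `w`, `√-3` and the primes dividing `γ` at the powers which are `1` modulo `γ`
-/

set_option autoImplicit false

namespace Pool.Agent.Lib.MP_1a91b9_ntN.T

open NumberField Pool.Agent.Lib.MP_1a91b9_ntT Pool.Agent.Lib.MP_1a91b9_ntX.R
  Pool.Agent.Lib.MP_1a91b9_ntK
open Pool.Agent.Lib.MP_1a91b9_ntT.S4 (omO omO_eq)
open Pool.Agent.Lib.MP_1a91b9_ntH (wO s3 Nz prime_s3 s3_sq exists_coords)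

theorem w3_pow (c : ZMod 3) (n : ℕ) : w3 c ^ n = w3 (n * c) := by
  obtain ⟨m, rfl⟩ : ∃ m : ℕ, (m : ZMod 3) = c := ⟨c.val, ZMod.natCast_zmod_val c⟩
  rw [← Nat.cast_mul, w3_natCast, w3_natCast, ← pow_mul, mul_comm]

/-- the residue of `a` is a cube in the extension of degree `f` of the residue field -/
theorem sym_local {P : Ideal (𝓞 K)} (hG : G3 P) {f : ℕ} {a : 𝓞 K} (ha : a ∉ P)
    (hf : (f : ZMod 3) * cs P a = 0) :
    ∃ m : ℕ, 3 * m = Ideal.absNorm P ^ f - 1 ∧ a ^ m - 1 ∈ P := by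
  obtain ⟨m₀, hm₀⟩ := hG.dvd
  have h1 := hG.one_lt
  have hspec := cs_spec hG ha
  have e0 : (Ideal.absNorm P - 1) / 3 = m₀ := by omega
  rw [e0] at hspec
  obtain ⟨q, hq⟩ : ∃ q, q = Ideal.absNorm P := ⟨_, rfl⟩
  rw [← hq] at hm₀ h1 ⊢
  have hq1 : q = 3 * m₀ + 1 := by omega
  obtain ⟨S, hS⟩ : ∃ S, S = ∑ i ∈ Finset.range f, q ^ i := ⟨_, rfl⟩
  have hgeom : S * (3 * m₀) + 1 = q ^ f := by
    have := geom_sum_mul_add (3 * m₀) f
    rw [← hq1, ← hS] at this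
    exact this
  refine ⟨m₀ * S, ?_, ?_⟩
  · rw [← hgeom, Nat.add_sub_cancel]
    ring
  · have hSf : (S : ZMod 3) = f := by
      rw [hS, Nat.cast_sum]
      have e1 : ∀ i ∈ Finset.range f, (((q ^ i : ℕ)) : ZMod 3) = 1 := by
        intro i _
        have e2 : ((3 : ℕ) : ZMod 3) = 0 := by decide
        rw [hq1, Nat.cast_pow, Nat.cast_add, Nat.cast_mul, e2, zero_mul, zero_add, Nat.cast_one,
          one_pow]
      rw [Finset.sum_congr rfl e1, Finset.sum_const, Finset.card_range, nsmul_eq_mul, mul_one]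
    have h2 : (w3 (cs P a) : 𝓞 K) ^ S = 1 := by
      rw [← Units.val_pow_eq_pow_val, w3_pow, hSf, hf, w3_zero, Units.val_one]
    have h3 := sub_dvd_pow_sub_pow (w3 (cs P a) : 𝓞 K) (a ^ m₀) S
    rw [h2, ← pow_mul] at h3
    have h4 : 1 - a ^ (m₀ * S) ∈ P := P.mem_of_dvd h3 hspec
    have h5 := P.neg_mem h4
    rwa [neg_sub] at h5

private theorem symT_nine {z : 𝓞 K} {f : ℕ} (h : (9 : 𝓞 K) ∣ (1 + 3 * z) ^ f - 1) :
    (3 : 𝓞 K) ∣ f * z := by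
  have h1 : (9 : 𝓞 K) ∣ (1 + 3 * z) ^ f - 1 - 3 * (f * z) := by
    clear h
    induction f with
    | zero => simp
    | succ f ih =>
      obtain ⟨c, hc⟩ := ih
      refine ⟨c * (1 + 3 * z) + f * z * z, ?_⟩
      rw [pow_succ]
      push_cast
      linear_combination (1 + 3 * z) * hc
  have h2 : (9 : 𝓞 K) ∣ 3 * (f * z) := by
    have := dvd_sub h h1
    rwa [sub_sub_cancel] at this
  obtain ⟨c, hc⟩ := h2
  refine ⟨c, ?_⟩
  have h3 : (3 : 𝓞 K) ≠ 0 := by norm_num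
  apply mul_left_cancel₀ h3
  linear_combination hc

/-- the coordinates of `z` with `3 ∣ f z` -/
private theorem symT_coords {m n : ℤ} {f : ℕ} (h : (3 : 𝓞 K) ∣ f * ((m : 𝓞 K) + n * wO)) :
    (f : ZMod 3) * (m : ZMod 3) = 0 ∧ (f : ZMod 3) * (n : ZMod 3) = 0 := by
  obtain ⟨c, hc⟩ := h
  obtain ⟨p, rfl⟩ := exists_coords c
  have h1 : ((f * m : ℤ) : 𝓞 K) + ((f * n : ℤ) : 𝓞 K) * wO =
      ((3 * p.1 : ℤ) : 𝓞 K) + ((3 * p.2 : ℤ) : 𝓞 K) * wO := by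
    push_cast
    linear_combination hc
  obtain ⟨h2, h3⟩ := Pool.Agent.Lib.MP_1a91b9_ntH.isEis.eq_iff.1 h1
  have e : ((3 : ℤ) : ZMod 3) = 0 := by decide
  constructor
  · have := congrArg (Int.cast : ℤ → ZMod 3) h2
    rw [Int.cast_mul, Int.cast_mul, e, zero_mul, Int.cast_natCast] at this
    exact this
  · have := congrArg (Int.cast : ℤ → ZMod 3) h3
    rw [Int.cast_mul, Int.cast_mul, e, zero_mul, Int.cast_natCast] at this
    exact this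

private theorem symT_form {β : 𝓞 K} (h : (3 : 𝓞 K) ∣ β - 1) :
    ∃ m n : ℤ, β = 1 + 3 * ((m : 𝓞 K) + n * wO) := by
  obtain ⟨c, hc⟩ := h
  obtain ⟨p, rfl⟩ := exists_coords c
  exact ⟨p.1, p.2, by linear_combination hc⟩

/-- the symbol of `w` -/
theorem sym_w {β : 𝓞 K} (hβ : Prime β) (h3 : (3 : 𝓞 K) ∣ β - 1) {f : ℕ}
    (h9 : (9 : 𝓞 K) ∣ β ^ f - 1) : (f : ZMod 3) * cs (Ideal.span {β}) wO = 0 := by
  obtain ⟨m, n, rfl⟩ := symT_form h3
  obtain ⟨h1, h2⟩ := symT_coords (symT_nine h9)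
  rw [cs_w hβ m n rfl]
  linear_combination - h1 - h2

/-- the symbol of `√-3` -/
theorem sym_s3 {β : 𝓞 K} (hβ : Prime β) (h3 : (3 : 𝓞 K) ∣ β - 1) {f : ℕ}
    (h9 : (9 : 𝓞 K) ∣ β ^ f - 1) : (f : ZMod 3) * cs (Ideal.span {β}) s3 = 0 := by
  obtain ⟨m, n, rfl⟩ := symT_form h3
  obtain ⟨h1, h2⟩ := symT_coords (symT_nine h9)
  rw [cs_s3 hβ m n rfl]
  linear_combination - h2

/-- the symbol of a prime which divides `β ^ f - 1` -/
theorem sym_prime {β π : 𝓞 K} (hβ : Prime β) (h3 : (3 : 𝓞 K) ∣ β - 1) (hπ : Prime π)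
    (h3π : (3 : 𝓞 K) ∣ π - 1) (hne : β ≠ π) {f : ℕ} (hd : π ∣ β ^ f - 1) :
    (f : ZMod 3) * cs (Ideal.span {β}) π = 0 := by
  have hG := g3 hπ h3π
  have hn := not_mem3 hπ hβ h3π h3 hne.symm
  rw [cs_recip hβ hπ h3 h3π hne, ← cs_pow hG hn, ← cs_one hG]
  refine cs_congr hG (fun h => ?_) (Ideal.mem_span_singleton.2 hd)
  exact hn (hG.pr.mem_of_pow_mem _ h)

/-- the units -/
theorem unit_cases {u : 𝓞 K} (hu : IsUnit u) :
    u = 1 ∨ u = -1 ∨ u = wO ∨ u = -wO ∨ u = wO * wO ∨ u = -(wO * wO) := by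
  obtain ⟨p, rfl⟩ := exists_coords u
  have h1 := (Pool.Agent.Lib.MP_1a91b9_ntH.isEis.isUnit_iff p.1 p.2).1 hu
  unfold Pool.Agent.Lib.MP_1a91b9_ntH.R.nm at h1
  have h3 : (2 * p.1 - p.2) ^ 2 + 3 * p.2 ^ 2 = 4 := by linear_combination 4 * h1
  have h3' : (2 * p.2 - p.1) ^ 2 + 3 * p.1 ^ 2 = 4 := by linear_combination 4 * h1
  have h4 : p.2 ^ 2 ≤ 1 := by nlinarith [sq_nonneg (2 * p.1 - p.2)]
  have h4' : p.1 ^ 2 ≤ 1 := by nlinarith [sq_nonneg (2 * p.2 - p.1)]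
  have h5 : -1 ≤ p.2 ∧ p.2 ≤ 1 := by constructor <;> nlinarith
  have h5' : -1 ≤ p.1 ∧ p.1 ≤ 1 := by constructor <;> nlinarith
  have hw : wO * wO = -wO - 1 := by
    linear_combination Pool.Agent.Lib.MP_1a91b9_ntH.wO_quad
  rw [hw]
  obtain ⟨m, n⟩ := p
  simp only at h1 h5 h5' ⊢
  obtain ⟨h6, h7⟩ := h5
  obtain ⟨h8, h9⟩ := h5'
  interval_cases m <;> interval_cases n <;> first | (exfalso; omega) | skip
  · right; right; right; right; left; push_cast; ring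
  · right; left; push_cast; ring
  · right; right; right; left; push_cast; ring
  · right; right; left; push_cast; ring
  · left; push_cast; ring
  · right; right; right; right; right; push_cast; ring

end Pool.Agent.Lib.MP_1a91b9_ntN.T
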